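import Pool.Agent.V11308.DC7

/-!
MP_dc1de5, Q1: all four items.
-/

namespace Pool.Agent.Results.MP_dc1de5_nt.AllItems

open Finset

/-- Apery polynomials -/
def A (n : ℕ) (x : ℚ) : ℚ :=
  ∑ k ∈ range (n + 1), (n.choose k : ℚ) ^ 2 * ((n + k).choose k : ℚ) ^ 2 * x ^ k

/-- the polynomials `D_n` -/
def D (n : ℕ) (x : ℚ) : ℚ :=
  ∑ k ∈ range (n + 1), (n.choose k : ℚ) * ((n + k).choose k : ℚ) * x ^ k

/-- `s(n)` -/
def s (n : ℕ) : ℚ :=
  1 / (n : ℚ) ^ 2 * ∑ k ∈ range n, (2 * (k : ℚ) + 1) * (-1) ^ k * A k (1 / 4)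

/-- `t(n)` -/
def t (n : ℕ) : ℚ :=
  1 / (n : ℚ) ^ 2 * ∑ k ∈ range n, (2 * (k : ℚ) + 1) * (-1) ^ k * D k (-1 / 4) ^ 3

/-- `r ≡ c (mod N)` for a rational `r` whose denominator is prime to `N`: `N` divides
`u - c v` where `r = u / v` in lowest terms -/
def CongQ (r : ℚ) (c N : ℤ) : Prop := IsCoprime (r.den : ℤ) N ∧ N ∣ r.num - c * r.den

theorem result :
    (∀ n : ℕ, 0 < n → (s n).den = 2 ^ (2 * padicValNat 2 n.factorial)) ∧
    (∀ n : ℕ, 0 < n →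
      (t n).den = 2 ^ (3 * (n - 1 + padicValNat 2 n.factorial) - padicValNat 2 n)) ∧
    (∀ n : ℕ, 0 < n → Odd n → (s n).num ≡ 1 [ZMOD 12]) ∧
    (∀ n : ℕ, 0 < n → Even n → (s n).num ≡ 7 [ZMOD 12]) ∧
    (∀ p a : ℕ, p.Prime → p ≠ 2 → 0 < a → CongQ (s (p ^ a)) 1 p ∧ CongQ (t (p ^ a)) 1 p) ∧
    (∀ a : ℕ, 0 < a → CongQ (s (3 ^ a)) 4 9 ∧ CongQ (t (3 ^ a)) (-8) 243) := by
  have hs : ∀ n, s n = Pool.Agent.V11308.DC.s n := fun n => rfl
  have ht : ∀ n, t n = Pool.Agent.V11308.DC.t n := fun n => rfl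
  have hC : ∀ r c N, CongQ r c N ↔ Pool.Agent.V11308.DC.CongQ r c N := fun r c N => Iff.rfl
  refine ⟨?_, ?_, ?_, ?_, ?_, ?_⟩
  · intro n hn
    rw [hs]
    exact (Pool.Agent.V11308.DC.s_main n hn).1
  · intro n hn
    rw [ht]
    exact Pool.Agent.V11308.DC.t_main n hn
  · intro n hn ho
    obtain ⟨_, h4, h3⟩ := Pool.Agent.V11308.DC.s_main n hn
    rw [if_pos ho] at h4
    rw [hs, Int.modEq_iff_dvd]
    omega
  · intro n hn he
    obtain ⟨_, h4, h3⟩ := Pool.Agent.V11308.DC.s_main n hn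
    rw [if_neg (Nat.not_odd_iff_even.mpr he)] at h4
    rw [hs, Int.modEq_iff_dvd]
    omega
  · intro p a hp h2 ha
    refine ⟨?_, ?_⟩
    · rw [hs, hC]
      exact Pool.Agent.V11308.DC.s_modp p a hp h2
    · rw [ht, hC]
      by_cases h3 : p = 3
      · subst h3
        obtain ⟨c1, c2⟩ := Pool.Agent.V11308.DC.t_mod243 a ha
        refine ⟨?_, ?_⟩
        · have : (243 : ℤ) = 3 * 81 := by norm_num
          rw [this] at c1
          exact c1.of_mul_right_left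
        · push_cast
          omega
      · have : Fact p.Prime := ⟨hp⟩
        exact Pool.Agent.V11308.DC.t_modp p a ha h2 h3
  · intro a ha
    exact ⟨by rw [hs, hC]; exact Pool.Agent.V11308.DC.s_mod9 a ha,
      by rw [ht, hC]; exact Pool.Agent.V11308.DC.t_mod243 a ha⟩

end Pool.Agent.Results.MP_dc1de5_nt.AllItems
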